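import Mathlib
import Pool.Agent.N824.C2.CurvS

/-!
# Torus-invariant metrics of positive scalar curvature on `X × Tᵏ` from coarse maps on `X`

Let `X` be a closed manifold of dimension `n` and `k ≥ 0`. If `X` is aspherical, so is `X × Tᵏ`. We
consider on `X × Tᵏ` the warped metrics `g + ∑ exp(2 v_j) dθ_j²`, where `g` is a Riemannian metric on
`X` induced by an immersion `F : X → ℝᴺ` (for large `N` these are all metrics, by Nash's theorem,
which is not used here) and `v_1, …, v_k` are functions on `X` (`Tᵏ`-stabilized scalar curvature).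
The scalar curvature of this metric is `s - 2 Δ V - |dV|² - ∑ |dv_j|²` with `V = v_1 + … + v_k`, where
`s`, `Δ` and the norms are those of `g`; for `k = 0` this is `s`. By Gauss's equation
`s = |tr II|² - |II|²`, where the second fundamental form `II` is the normal component of the second
derivative of `F` in a parametrization of `X`; the Christoffel symbols, which enter in `Δ V`, are
given by the tangential component.

The theorem characterizes when there is a smooth `(F, v_1, …, v_k) : X → ℝᴺ × ℝᵏ` such that this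
metric has positive scalar curvature: this is the case if and only if there are *coarse* maps of this
kind. That is, for arbitrarily small scales `r` (all `r` in a set `S` accumulating at `0`) there are
maps `f r : X → ℝᴺ × ℝᵏ` with the following property. They need not be continuous, they are unrelated
for different `r`, and nothing is assumed about `f r` at scales different from `r`. Near each point
`x` there is a smooth parametrization `A` of `X`, `κ`-bi-Lipschitz for some function `d(x, y)`, such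
that for all `p` near `0` the map `f r ∘ A` is, on the ball of radius `κ² r` about `p`, *in the mean*
within `δ r²` of a quadratic map with first derivative `L` and second derivative `Q` at `p`, where
`(1 + ‖L‖ + ‖Q‖) r ≤ δ τ(r)` with `τ(r) → 0`, and all `L'`, `Q'` with `‖L' - L‖` and `‖Q' - Q‖` at
most `C κ^(2n+4) δ` are the derivatives of maps with this property. Here `L`, `Q`, `δ` depend on `p`
and `r` in any way and `C` is any sufficiently large constant, which depends on `n` only. The metrics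
may degenerate or blow up with `r`, and their scalar curvatures need not be positive.
-/

set_option autoImplicit false
set_option maxSynthPendingDepth 3

open Set Filter Topology Metric MeasureTheory Function
open scoped Manifold ContDiff InnerProductSpace

noncomputable section

namespace Pool.Agent.Results.MP_df705a_gt.CoarseStabilizedPsc

/-- `ℝᵐ` -/
abbrev R (m : ℕ) := EuclideanSpace ℝ (Fin m)

/-- Lebesgue measure on `ℝᵐ` -/
def vol (m : ℕ) : Measure (R m) := volume

/-- the standard basis of `ℝᵐ` -/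
def std (m : ℕ) (i : Fin m) : R m := EuclideanSpace.single i 1

/-- the sum of the coordinates -/
def tot {k : ℕ} (y : R k) : ℝ := ∑ j, y j

/-- the sum of the products of the coordinates -/
def sprod {k : ℕ} (y z : R k) : ℝ := ∑ j, y j * z j

/-! First the notions for maps with 2-jets satisfying a condition `P`; `V = ℝⁿ` is the model space of
`X` and `E = ℝᴺ × ℝᵏ` the target. A symmetric bilinear map `V × V → E` is an element of
`V →L[ℝ] V →L[ℝ] E`. -/

section

variable {V E : Type} [NormedAddCommGroup V] [InnerProductSpace ℝ V] [NormedAddCommGroup E]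
  [NormedSpace ℝ E]

/-- `Q` is symmetric -/
def Symm (Q : V →L[ℝ] V →L[ℝ] E) : Prop := ∀ u v, Q u v = Q v u

/-- all derivatives at distance at most `b` from `L` and `Q` satisfy `P` -/
def Margin (P : (V →L[ℝ] E) → (V →L[ℝ] V →L[ℝ] E) → Prop) (b : ℝ) (L : V →L[ℝ] E)
    (Q : V →L[ℝ] V →L[ℝ] E) : Prop :=
  ∀ (L' : V →L[ℝ] E) (Q' : V →L[ℝ] V →L[ℝ] E), Symm Q' → ‖L' - L‖ ≤ b → ‖Q' - Q‖ ≤ b → P L' Q'

/-- the quadratic map with the value `c` and the derivatives `L` and `Q` at `p` -/
def quad (c : E) (L : V →L[ℝ] E) (Q : V →L[ℝ] V →L[ℝ] E) (p s : V) : E :=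
  c + L (s - p) + (1 / 2 : ℝ) • Q (s - p) (s - p)

/-- `h` is integrable on the ball of radius `a` about `p` and its distance to a quadratic map with
the derivatives `L` and `Q` at `p` has integral at most `b` over this ball. -/
def QuadInMean [MeasurableSpace V] (μ : Measure V) (h : V → E) (p : V) (a b : ℝ)
    (L : V →L[ℝ] E) (Q : V →L[ℝ] V →L[ℝ] E) : Prop :=
  IntegrableOn h (closedBall p a) μ ∧
    ∃ c : E, ∫ q in closedBall p a, ‖h q - quad c L Q p q‖ ∂μ ≤ b

variable {X : Type} [TopologicalSpace X] [ChartedSpace V X]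

/-- smooth maps -/
def Smooth (V : Type) [NormedAddCommGroup V] [InnerProductSpace ℝ V] [ChartedSpace V X]
    (F : X → E) : Prop := ContMDiff 𝓘(ℝ, V) 𝓘(ℝ, E) ∞ F

/-- `A` is a smooth parametrization near `x = A 0` -/
def Param (A : V → X) (x : X) : Prop :=
  A 0 = x ∧ IsLocalDiffeomorphAt 𝓘(ℝ, V) 𝓘(ℝ, V) ∞ A 0

/-- the derivatives of `F` at `x`, in some parametrization, satisfy `P` -/
def JetAt (P : (V →L[ℝ] E) → (V →L[ℝ] V →L[ℝ] E) → Prop) (F : X → E) (x : X) : Prop :=
  ∃ A : V → X, Param A x ∧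
    P (fderiv ℝ (fun z => F (A z)) 0) (fderiv ℝ (fderiv ℝ fun z => F (A z)) 0)

/-- `A` is `κ`-bi-Lipschitz for `d` on the ball of radius `ρ`. -/
def BiLip (d : X → X → ℝ) (A : V → X) (κ ρ : ℝ) : Prop :=
  1 ≤ κ ∧ 0 < ρ ∧ ∀ p q : V, ‖p‖ < ρ → ‖q‖ < ρ →
    d (A p) (A q) ≤ κ * ‖p - q‖ ∧ ‖p - q‖ ≤ κ * d (A p) (A q)

/-- the maps `f r` satisfy `P` coarsely at `x`, each one at its scale `r ∈ S`; `n` is the dimension
of `X` -/
def CoarseAt [MeasurableSpace V] (P : (V →L[ℝ] E) → (V →L[ℝ] V →L[ℝ] E) → Prop) (n : ℕ)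
    (μ : Measure V) (C : ℝ) (d : X → X → ℝ) (S : Set ℝ) (f : ℝ → X → E) (x : X) : Prop :=
  ∃ (A : V → X) (κ ρ : ℝ) (τ : ℝ → ℝ), Param A x ∧ BiLip d A κ ρ ∧ Tendsto τ (𝓝[>] 0) (𝓝 0) ∧
    ∀ p, ‖p‖ < ρ → ∀ r ∈ S, 0 < r → r < ρ →
      ∃ (L : V →L[ℝ] E) (Q : V →L[ℝ] V →L[ℝ] E) (δ : ℝ), 0 ≤ δ ∧ Symm Q ∧
        (1 + ‖L‖ + ‖Q‖) * r ≤ δ * τ r ∧
        QuadInMean μ (fun z => f r (A z)) p (κ ^ 2 * r) (δ * r ^ (n + 2)) L Q ∧
        Margin P (C * κ ^ (2 * n + 4) * δ) L Q

end

/-! Now the scalar curvature; `W = ℝᴺ`, `Y = ℝᵏ`. -/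

section

variable {V W Y : Type} [NormedAddCommGroup V] [InnerProductSpace ℝ V] [FiniteDimensional ℝ V]
  [NormedAddCommGroup W] [InnerProductSpace ℝ W] [FiniteDimensional ℝ W]
  [NormedAddCommGroup Y] [NormedSpace ℝ Y]

/-- the inverse of the metric `⟪L u, L v⟫` induced by `L` -/
def invMetric (L : V →L[ℝ] W) : V →L[ℝ] V :=
  ContinuousLinearMap.inverse ((ContinuousLinearMap.adjoint L).comp L)

/-- the second fundamental form of a map with the derivatives `L` and `Q`: the component of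
`Q u v` orthogonal to the image of `L` -/
def II (L : V →L[ℝ] W) (Q : V →L[ℝ] V →L[ℝ] W) (u v : V) : W :=
  Q u v - L (invMetric L (ContinuousLinearMap.adjoint L (Q u v)))

/-- the scalar curvature of the induced metric, by Gauss's equation: the square of the norm of the
trace of the second fundamental form minus the square of its norm, for the induced metric; `e` is
an orthonormal basis of `V` -/
def scalCurv {ι : Type} [Fintype ι] (e : ι → V) (L : V →L[ℝ] W)
    (Q : V →L[ℝ] V →L[ℝ] W) : ℝ :=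
  ‖∑ i, II L Q (invMetric L (e i)) (e i)‖ ^ 2 -
    ∑ i, ∑ j, ⟪II L Q (invMetric L (e i)) (invMetric L (e j)), II L Q (e i) (e j)⟫_ℝ

/-- the first component of `L` -/
def fstL (L : V →L[ℝ] W × Y) : V →L[ℝ] W := (ContinuousLinearMap.fst ℝ W Y).comp L

/-- the first component of `Q` -/
def fstQ (Q : V →L[ℝ] V →L[ℝ] W × Y) : V →L[ℝ] V →L[ℝ] W :=
  (ContinuousLinearMap.compL ℝ V (W × Y) W (ContinuousLinearMap.fst ℝ W Y)).comp Q

/-- the derivative of the second component in the direction of the tangential component of `w`, for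
the first component -/
def tanSnd (L : V →L[ℝ] W × Y) (w : W) : Y :=
  (L (invMetric (fstL L) (ContinuousLinearMap.adjoint (fstL L) w))).2

/-- the Hessian of the second component, for the metric induced by the first component: the second
derivative minus the first derivative in the direction of the tangential component of the second
derivative of the first component -/
def hessSnd (L : V →L[ℝ] W × Y) (Q : V →L[ℝ] V →L[ℝ] W × Y) (u v : V) : Y :=
  (Q u v).2 - tanSnd L (Q u v).1

variable {ι : Type} [Fintype ι]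

/-- the Laplacian of `T ∘ v` for the second component `v` and the metric induced by the first
component; `e` is an orthonormal basis of `V` -/
def lapTot (T : Y → ℝ) (e : ι → V) (L : V →L[ℝ] W × Y) (Q : V →L[ℝ] V →L[ℝ] W × Y) : ℝ :=
  ∑ i, T (hessSnd L Q (invMetric (fstL L) (e i)) (e i))

/-- the trace of `B(dv, dv)` for the second component `v` and the metric induced by the first
component -/
def gradTot (B : Y → Y → ℝ) (e : ι → V) (L : V →L[ℝ] W × Y) : ℝ :=
  ∑ i, B (L (invMetric (fstL L) (e i))).2 (L (e i)).2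

/-- `s - 2 Δ (T v) - tr T(dv)² - tr B(dv, dv)`; with `T = tot` and `B = sprod` this is the scalar
curvature `s - 2 Δ V - |dV|² - ∑ |dv_j|²`, `V = ∑ v_j`, of `g + ∑ exp(2 v_j) dθ_j²`. -/
def stabScal (T : Y → ℝ) (B : Y → Y → ℝ) (e : ι → V) (L : V →L[ℝ] W × Y)
    (Q : V →L[ℝ] V →L[ℝ] W × Y) : ℝ :=
  scalCurv e (fstL L) (fstQ Q) - 2 * lapTot T e L Q - gradTot (fun y z => T y * T z) e L -
    gradTot B e L

/-- maps with the derivatives `L` and `Q` are immersions in the first component and the warped metric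
has positive scalar curvature (for `T = tot`, `B = sprod`) -/
def PosStab (T : Y → ℝ) (B : Y → Y → ℝ) (e : ι → V) (L : V →L[ℝ] W × Y)
    (Q : V →L[ℝ] V →L[ℝ] W × Y) : Prop :=
  Injective (fstL L) ∧ 0 < stabScal T B e L Q

/-- there is a smooth map `X → W × Y` with `PosStab` everywhere -/
def HasSmooth (T : Y → ℝ) (B : Y → Y → ℝ) (e : ι → V) (W : Type) [NormedAddCommGroup W]
    [InnerProductSpace ℝ W] [FiniteDimensional ℝ W] (X : Type) [TopologicalSpace X]
    [ChartedSpace V X] : Prop :=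
  ∃ F : X → W × Y, Smooth V F ∧ ∀ x, JetAt (PosStab T B e) F x

/-- there are coarse maps `X → W × Y` with `PosStab` -/
def HasCoarse [MeasurableSpace V] (T : Y → ℝ) (B : Y → Y → ℝ) (e : ι → V) (n : ℕ)
    (μ : Measure V) (C : ℝ) (W : Type) [NormedAddCommGroup W] [InnerProductSpace ℝ W]
    [FiniteDimensional ℝ W] (X : Type) [TopologicalSpace X] [ChartedSpace V X] : Prop :=
  ∃ (d : X → X → ℝ) (S : Set ℝ) (f : ℝ → X → W × Y), (0 : ℝ) ∈ closure (S ∩ Ioi 0) ∧
    ∀ x, CoarseAt (PosStab T B e) n μ C d S f x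

end

theorem posStab_iff {n k N : ℕ} (L : R n →L[ℝ] R N × R k) (Q : R n →L[ℝ] R n →L[ℝ] R N × R k) :
    Pool.Agent.N824.C2.PosStab (std n) L Q ↔ PosStab (tot (k := k)) sprod (std n) L Q := Iff.rfl

theorem result (n : ℕ) : ∃ C₀ : ℝ, ∀ C : ℝ, C₀ ≤ C → ∀ (k N : ℕ) (X : Type)
    [TopologicalSpace X] [T2Space X] [CompactSpace X] [ChartedSpace (R n) X]
    [IsManifold 𝓘(ℝ, R n) ∞ X],
    HasSmooth (tot (k := k)) sprod (std n) (R N) X ↔
      HasCoarse (tot (k := k)) sprod (std n) n (vol n) C (R N) X := by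
  obtain ⟨C₀, hC₀⟩ := Pool.Agent.N824.C2.main2c n
  refine ⟨C₀, fun C hC k N X _ _ _ _ _ => ?_⟩
  have hmain := hC₀ C hC (R N × R k) (PosStab (tot (k := k)) sprod (std n))
    (fun L Q _ h => by
      obtain ⟨b, hb, h1⟩ := Pool.Agent.N824.C2.posStab_open (std n) ((posStab_iff L Q).2 h)
      exact ⟨b, hb, fun L' Q' _ h2 h3 => (posStab_iff L' Q').1 (h1 L' Q' h2 h3)⟩) X
  refine Iff.trans ?_ (hmain.trans ?_)
  · constructor
    · rintro ⟨F, h1, h2⟩
      refine ⟨F, h1, fun x => ?_⟩
      obtain ⟨A, ⟨k1, k2⟩, k3⟩ := h2 x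
      exact ⟨A, k1, k2, k3⟩
    · rintro ⟨F, h1, h2⟩
      refine ⟨F, h1, fun x => ?_⟩
      obtain ⟨A, k1, k2, k3⟩ := h2 x
      exact ⟨A, ⟨k1, k2⟩, k3⟩
  · constructor
    · rintro ⟨d, S, f, h1, h2⟩
      refine ⟨d, S, f, h1, fun x => ?_⟩
      obtain ⟨A, κ, ρ, τ, k1, k2, k3, k4, k5, k6, k7⟩ := h2 x
      refine ⟨A, κ, ρ, τ, ⟨k1, k2⟩, ⟨k3, k4, k6⟩, k5, fun p hp r hr h0 hrρ => ?_⟩
      obtain ⟨L, Q, δ, c, m1, m2, m3, ⟨m4, m5⟩, m6⟩ := k7 p hp r hr h0 hrρ
      exact ⟨L, Q, δ, m1, m2, m3, ⟨m4, c, m5⟩, m6⟩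
    · rintro ⟨d, S, f, h1, h2⟩
      refine ⟨d, S, f, h1, fun x => ?_⟩
      obtain ⟨A, κ, ρ, τ, ⟨k1, k2⟩, ⟨k3, k4, k6⟩, k5, k7⟩ := h2 x
      refine ⟨A, κ, ρ, τ, k1, k2, k3, k4, k5, k6, fun p hp r hr h0 hrρ => ?_⟩
      obtain ⟨L, Q, δ, m1, m2, m3, ⟨m4, c, m5⟩, m6⟩ := k7 p hp r hr h0 hrρ
      exact ⟨L, Q, δ, c, m1, m2, m3, ⟨m4, m5⟩, m6⟩

end Pool.Agent.Results.MP_df705a_gt.CoarseStabilizedPsc
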