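import Pool.Agent.Y983.PW.T
import Pool.Agent.N506.Gen2
import Pool.Agent.N506.CK

/-!
Relative closure properties of the class of the groups with injective rational analytic assembly
maps, with values in the `K`-theory of the maximal group C*-algebra. A closed aspherical spin manifold
whose fundamental group is in this class has no metric of positive scalar curvature (Rosenberg).

`kC` is the functor `G ↦ ℚ ⊗ K_0(C*_max G)`, `hq j` is the functor `G ↦ H_j(G; ℚ)`, `T` is a fixed
group, and `α_{j,i} : H_j(G; ℚ) → ℚ ⊗ K_0(C*_max (G × T))`, `i ∈ I_j`, is any family of
transformations natural in the group `G` (for instance the components of the rational assembly maps;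
for `T = ℤ` the target is the sum of `ℚ ⊗ K_0(C*_max G)` and `ℚ ⊗ K_1(C*_max G)`).

`𝓑` is any class of groups which contains the groups `ℤ^n` and is closed under direct products of two
groups. If the sum of all the `α_{j,i}` is injective on all groups of `𝓑`, then it is injective on all
groups of the smallest class `Gen2 𝓑` which contains `𝓑` and the groups `P / [S, S]`, for all
virtually free groups `P` and all normal subgroups `S`, and is closed under direct products,
overgroups of finite index, extensions with finite kernel, graph products, restricted wreath products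
`K ≀_V Γ` such that the pointwise stabilizers in `Γ` of the finite subsets of `V` are in the class,
semidirect products with a system of supports, directed colimits along arbitrary homomorphisms, and
detection of rational homology classes by homomorphisms to groups of the class.
-/

namespace Pool.Agent.Results.MP_df705a_gt.RelativeClosure

open CategoryTheory Pool.Agent.Y483 Pool.Agent.Y483.CS Pool.Agent.Y75.MQ Pool.Agent.Y483.PW
  Pool.Agent.N506

theorem result (T : Type) [Group T] (I : ℕ → Type)
    (α : ∀ j : ℕ, I j → (hq j ⟶ timesF T ⋙ kC)) (𝓑 : GrpCat.{0} → Prop) (hZ : ∀ n, 𝓑 (zn n))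
    (hprod : ∀ B B' : GrpCat.{0}, 𝓑 B → 𝓑 B' → 𝓑 (GrpCat.of (B × B')))
    (hα : ∀ B : GrpCat.{0}, 𝓑 B → kerFam (fun p : Σ j, I j => α p.1 p.2) B = ⊥)
    (G : Type) [Group G] (hG : Gen2 𝓑 G) :
    kerFam (fun p : Σ j, I j => α p.1 p.2) (GrpCat.of G) = ⊥ :=
  gen2_rdet hasPT_kC cont_kC hZ hprod hG T I α hα

end Pool.Agent.Results.MP_df705a_gt.RelativeClosure
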