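import Pool.Agent.N316.NV.Mai
import Pool.Agent.N506.CK

/-!
# One finitely generated group decides the rational injectivity of analytic assembly (maximal version)

`kC` is the functor `G ↦ ℚ ⊗ K_0(C*_max G)`, `hq j` is the functor `G ↦ H_j(G; ℚ)`, `T` is a fixed
group, and `α_{j,i} : H_j(G; ℚ) → ℚ ⊗ K_0(C*_max (G × T))`, `i ∈ I_j`, is any family of
transformations natural in the group `G` (for instance the components of the rational assembly maps;
for `T = ℤ` the target is the sum of `ℚ ⊗ K_0(C*_max G)` and `ℚ ⊗ K_1(C*_max G)`). The family is
injective on `G` if the sum `⨁_{j,i} H_j(G; ℚ) → ℚ ⊗ K_0(C*_max (G × T))` of its members is injective.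

There is a group `V` with three generators such that, with `R = ℤ[V]` (a finitely generated ring), the
following holds for all such families which are injective on `ℤ` (Bott periodicity for the assembly
maps). If the family is injective on the elementary group `E_n(R)` for some `n ≥ 2`, or on any group
between `E_n(R)` and `GL_n(R)`, or on `V`, then it is injective on all groups.

If the rational assembly map is injective for the fundamental group of a closed aspherical spin
manifold `M`, then the Rosenberg index `α(M)` is not zero and `M` has no metric of positive scalar
curvature. So closed aspherical spin manifolds have no metrics of positive scalar curvature, in all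
dimensions and with all fundamental groups, if the rational assembly map is injective for the one
group `V`, or for the one group `E_3(ℤ[V])`, which has Kazhdan's property (T) by a theorem of Ershov
and Jaikin-Zapirin. (The group does not depend on the manifold and is not required to be the
fundamental group of an aspherical manifold; the injectivity is not known to pass to subgroups, so
that it is not enough that a group contains all others.)
-/

set_option autoImplicit false

namespace Pool.Agent.Results.MP_df705a_gt.UniversalGroup

open CategoryTheory Pool.Agent.Y483 Pool.Agent.Y483.CS Pool.Agent.Y75.MQ Pool.Agent.N506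
  Pool.Agent.N316.NV

theorem result : ∃ (V : Type) (_ : Group V),
    (∃ g : Fin 3 → V, Subgroup.closure (Set.range g) = ⊤) ∧
    (∃ s : Finset (MonoidAlgebra ℤ V), Subring.closure (s : Set (MonoidAlgebra ℤ V)) = ⊤) ∧
    ∀ (T : Type) [Group T] (I : ℕ → Type) (α : ∀ j : ℕ, I j → (hq j ⟶ timesF T ⋙ kC)),
      Inj α (zn 1) → (Inj α V ∨ ∃ n : ℕ, 2 ≤ n ∧ ∃ H : Subgroup (GLn n (MonoidAlgebra ℤ V)),
        elem n (MonoidAlgebra ℤ V) ≤ H ∧ Inj α H) → ∀ (G : Type) [Group G], Inj α G := by
  obtain ⟨V, iV, h1, h2, h3, h4⟩ := universal
  refine ⟨V, iV, h1, h2, ?_⟩
  intro T _ I α hZ h G _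
  rcases h with h | ⟨n, hn, H, hH, h⟩
  · refine h3 kC cont_kC G T I α ?_
    rintro B (rfl | rfl)
    · exact hZ
    · exact h
  · refine h4 n hn H hH kC cont_kC G T I α ?_
    rintro B (rfl | rfl)
    · exact hZ
    · exact h

end Pool.Agent.Results.MP_df705a_gt.UniversalGroup
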